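import Pool.Agent.L0h5.TT.Stm

/-!
# The growth of the average, by forms
-/

set_option autoImplicit false

namespace Pool.Agent.L0h93.TT

open Finset Pool.Agent.W262.RK Pool.Agent.L0h5.TF Pool.Agent.L0h5.TT Pool.Agent.L0h94.FT

lemma lamc_nonneg (k : ℕ) (c : Fin 3) (v h : Vk k) : 0 ≤ lamc k c v h := by
  unfold lamc
  exact sum_nonneg fun σ _ => mul_nonneg (by norm_num) (prod_nonneg fun i _ => iL_nonneg _ _ _)

lemma G3_nonneg (k : ℕ) (s : Fin 3 → ℕ) : 0 ≤ G3 k s := by
  unfold G3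
  rw [Gs_def]
  exact sum_nonneg fun D _ => prod_nonneg fun p _ => lamc_nonneg _ _ _ _

lemma card_pf_prod (e : Fin 3 → ℕ) (h : Squarefree (∏ j, e j)) :
    (∏ j, e j).primeFactors.card = ∑ j, (e j).primeFactors.card := by
  rw [Fin.prod_univ_three, Fin.sum_univ_three] at *
  have h0 := h.ne_zero
  have h01 : Squarefree (e 0 * e 1) := h.of_mul_left
  have c1 : (e 0 * e 1).Coprime (e 2) := Nat.coprime_of_squarefree_mul h
  have c2 : (e 0).Coprime (e 1) := Nat.coprime_of_squarefree_mul h01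
  rw [c1.primeFactors_mul, card_union_of_disjoint c1.disjoint_primeFactors, c2.primeFactors_mul,
    card_union_of_disjoint c2.disjoint_primeFactors]

/-- the type does not change -/
lemma tp_mul (s e : Fin 3 → ℕ) (h : Squarefree ((∏ j, s j) * ∏ j, e j)) (p : ℕ) (hp : p.Prime)
    (hps : p ∣ ∏ j, s j) : tp (fun j => s j * e j) p = tp s p := by
  have hco := Nat.coprime_of_squarefree_mul h
  have hpe : ∀ j, ¬ p ∣ e j := fun j hj => by
    have h1 : p ∣ ∏ j, e j := hj.trans (dvd_prod_of_mem _ (mem_univ j))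
    have h2 := Nat.dvd_gcd hps h1
    rw [hco.gcd_eq_one] at h2
    exact hp.one_lt.ne' (Nat.dvd_one.1 h2)
  have h3 : ∀ j, p ∣ s j * e j ↔ p ∣ s j := fun j => by
    rw [hp.dvd_mul]
    simp [hpe j]
  unfold tp
  simp only [h3]

lemma Gs_congr {k : ℕ} (lam lam' : ℕ → Vk k → Vk k → ℝ) (m : ℕ)
    (h : ∀ p, p.Prime → p ∣ m → lam p = lam' p) : Gs lam m = Gs lam' m := by
  rw [Gs_def, Gs_def]
  refine sum_congr rfl fun D _ => prod_congr rfl fun p hp => ?_
  rw [h p (Nat.prime_of_mem_primeFactors hp) (Nat.dvd_of_mem_primeFactors hp)]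

/-- **E1** -/
theorem gro : S_GRO := by
  intro k s e h
  refine ⟨G3_nonneg k s, ?_⟩
  rw [prod_mul_distrib] at h
  have h1 := sub_abs (k := k) (fun _ => (univ : Finset Bool))
    (fun σ p => Lce (tp (fun j => s j * e j) p) σ)
    (fun p => lamc k (tp (fun j => s j * e j) p)) 1 (∏ j, s j) (∏ j, e j) h
    (fun p _ _ v h => rfl) (fun p _ _ => by
      rw [card_univ, Fintype.card_bool]
      norm_num)
    (fun p _ _ σ _ => xc_Lce _ _)
  rw [mul_one, card_pf_prod e h.of_mul_right] at h1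
  have h2 : Gs (fun p => lamc k (tp (fun j => s j * e j) p)) (∏ j, s j) = G3 k s := by
    refine Gs_congr _ _ _ fun p hp hps => ?_
    rw [tp_mul s e h p hp hps]
  rw [h2] at h1
  unfold G3 at h1 ⊢
  rw [prod_mul_distrib]
  exact h1

end Pool.Agent.L0h93.TT
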