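import Pool.Agent.L0h93.TT.Gro
import Pool.Agent.L0h5.NT.RSg

/-!
# The trivial bound for the average
-/

set_option autoImplicit false

namespace Pool.Agent.L0h93.TT

open Finset Pool.Agent.W262.RK Pool.Agent.L0h5.TF Pool.Agent.L0h5.TT Pool.Agent.L0h94.FT
open Pool.Agent.L0h5.NT Pool.Agent.W405.RK2

lemma G3_one (k : ℕ) : G3 k (fun _ => 1) = 1 := by
  unfold G3
  rw [prod_const_one, Gs_def, Nat.primeFactors_one]
  simp only [prod_empty, sum_const, nsmul_eq_mul, mul_one]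
  unfold Dv
  rw [Fintype.card_piFinset]
  simp

lemma sq_Tup {z y : ℕ} {s : Fin 3 → ℕ} (hs : s ∈ Tup (Fin 3) z y) : Squarefree (∏ j, s j) := by
  have h := Pool.Agent.W405.RK2.mem_Tup.1 hs
  have hsq : ∀ j, Squarefree (s j) := fun j =>
    (Pool.Agent.W405.RK2.PP_squarefree z y).squarefree_of_dvd (h.1 j)
  rw [Fin.prod_univ_three]
  have c1 : (s 0).Coprime (s 1) := h.2 0 1 (by decide)
  have c2 : (s 0 * s 1).Coprime (s 2) :=
    Nat.Coprime.mul_left (h.2 0 2 (by decide)) (h.2 1 2 (by decide))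
  rw [Nat.squarefree_mul c2, Nat.squarefree_mul c1]
  exact ⟨⟨hsq 0, hsq 1⟩, hsq 2⟩

/-- the pointwise bound -/
lemma G3_le (hG : S_GRO) (k z y : ℕ) (s : Fin 3 → ℕ) (hs : s ∈ Tup (Fin 3) z y) :
    G3 k s ≤ ∏ j, ((4 : ℝ) ^ k) ^ (s j).primeFactors.card := by
  have h1 := (hG k (fun _ => 1) s (by simpa using sq_Tup hs)).2
  rw [G3_one, mul_one, ← prod_pow_eq_pow_sum] at h1
  simpa using h1

/-- **E2** -/
theorem trv (hG : S_GRO) : S_TRV := by
  intro k
  refine ⟨3 * 4 ^ k, fun lam hlam z hz => ?_⟩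
  obtain ⟨Cm, hCm⟩ := mert z hz
  set b : ℝ := (4 : ℝ) ^ k with hb
  have hb0 : 0 ≤ b := by positivity
  have hg : ∀ y, z < y → ∀ s e : Fin 3 → ℕ, (fun j => s j * e j) ∈ Tup (Fin 3) z y →
      G3 k (fun j => s j * e j) ≤ b ^ (∑ j, (e j).primeFactors.card) * G3 k s :=
    fun y _ s e h => (hG k s e (sq_Tup h)).2
  have hS : ∀ y, z < y → ∑ s ∈ Tup (Fin 3) z y, G3 k s * ∏ j, gw 1 3 (s j) ≤
      Real.exp (3 * b * Cm) * (Real.log y) ^ (3 * 4 ^ k) := by
    intro y hy
    have hy3 : 3 ≤ y := by omega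
    have hyr : (3 : ℝ) ≤ y := by exact_mod_cast hy3
    have hl1 : 1 < Real.log y := by
      rw [Real.lt_log_iff_exp_lt (by linarith)]
      have := Real.exp_one_lt_d9
      linarith
    set φ : ℕ → ℝ := fun d => b ^ d.primeFactors.card * gw 1 3 d with hφ
    have hφn : ∀ d ∈ (PP z y).divisors, 0 ≤ φ d := fun d hd =>
      mul_nonneg (by positivity) (gw1_nonneg (by omega) (Nat.dvd_of_mem_divisors hd))
    have h1 : ∑ s ∈ Tup (Fin 3) z y, G3 k s * ∏ j, gw 1 3 (s j) ≤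
        ∑ s ∈ Tup (Fin 3) z y, ∏ j, φ (s j) := by
      refine sum_le_sum fun s hs => ?_
      rw [hφ, prod_mul_distrib]
      refine mul_le_mul_of_nonneg_right (G3_le hG k z y s hs) (prod_nonneg fun j _ => ?_)
      exact gw1_nonneg (by omega) ((Pool.Agent.W405.RK2.mem_Tup.1 hs).1 j)
    have h2 : ∑ s ∈ Tup (Fin 3) z y, ∏ j, φ (s j) ≤
        ∑ s ∈ Fintype.piFinset (fun _ : Fin 3 => (PP z y).divisors), ∏ j, φ (s j) := by
      refine sum_le_sum_of_subset_of_nonneg (fun s hs => ?_) fun e he _ => ?_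
      · exact Fintype.mem_piFinset.2 fun j => Nat.mem_divisors.2
          ⟨(Pool.Agent.W405.RK2.mem_Tup.1 hs).1 j, Pool.Agent.W405.RK2.PP_ne_zero z y⟩
      · exact prod_nonneg fun j _ => hφn _ (Fintype.mem_piFinset.1 he j)
    have h3 : ∑ s ∈ Fintype.piFinset (fun _ : Fin 3 => (PP z y).divisors), ∏ j, φ (s j) =
        (∑ d ∈ (PP z y).divisors, φ d) ^ 3 := by
      rw [← Finset.prod_univ_sum, prod_const, Finset.card_univ, Fintype.card_fin]
    set ψ : ℕ → ℝ := fun p => b * (1 / ((p : ℝ) - 3)) with hψ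
    have h4 : ∑ d ∈ (PP z y).divisors, φ d = ∏ p ∈ PS z y, (1 + ψ p) := by
      have := Pool.Agent.W655.RK.sum_mult (PS z y) (fun p hp => Pool.Agent.W655.RK.PS_prime hp) ψ
      rw [← this]
      refine sum_congr rfl fun d _ => ?_
      simp only [hφ, hψ, gw]
      rw [← prod_const, ← prod_mul_distrib]
      push_cast
      rfl
    have hψn : ∀ p ∈ PS z y, 0 ≤ ψ p := by
      intro p hp
      have hpz := Pool.Agent.W655.RK.PS_lt hp
      have hp1 : (4 : ℝ) ≤ p := by exact_mod_cast (by omega : 4 ≤ p)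
      exact mul_nonneg hb0 (div_nonneg (by norm_num) (by linarith))
    have h5 : ∏ p ∈ PS z y, (1 + ψ p) ≤ Real.exp (∑ p ∈ PS z y, ψ p) :=
      Pool.Agent.W655.RK.prod_le_exp _ _ fun p hp => by linarith [hψn p hp]
    have h6 : ∑ p ∈ PS z y, ψ p ≤ b * (Real.log (Real.log y) + Cm) := by
      rw [hψ, ← mul_sum]
      exact mul_le_mul_of_nonneg_left (hCm y hy) hb0
    have h7 : 0 ≤ ∑ d ∈ (PP z y).divisors, φ d := sum_nonneg hφn
    calc _ ≤ _ := h1
      _ ≤ _ := h2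
      _ = _ := h3
      _ ≤ (Real.exp (b * (Real.log (Real.log y) + Cm))) ^ 3 := by
          refine pow_le_pow_left₀ h7 ?_ _
          rw [h4]
          exact h5.trans (Real.exp_le_exp.2 h6)
      _ = Real.exp (3 * b * Cm) * (Real.log y) ^ (3 * 4 ^ k) := by
          have h8 : (Real.log y) ^ (3 * 4 ^ k) = Real.exp (3 * b * Real.log (Real.log y)) := by
            rw [← Real.rpow_natCast, Real.rpow_def_of_pos (by linarith)]
            congr 1
            push_cast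
            rw [hb]
            ring
          rw [h8, ← Real.exp_nat_mul, ← Real.exp_add]
          congr 1
          push_cast
          ring
  obtain ⟨C, hC⟩ := rs_g (Fin 3) z 3 (3 * 4 ^ k) (G3 k) b (Real.exp (3 * b * Cm)) lam hb0
    (by omega) hlam (G3_nonneg k) hg hS
  refine ⟨|C|, abs_nonneg C, fun y hy => (hC y hy).trans ?_⟩
  have hy3 : 3 ≤ y := by omega
  have hyr : (1 : ℝ) ≤ y := by exact_mod_cast (by omega : 1 ≤ y)
  exact mul_le_mul_of_nonneg_right (le_abs_self C) (pow_nonneg (Real.log_nonneg hyr) _)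

end Pool.Agent.L0h93.TT
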